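import Pool.Agent.Helper44.GJ.Stmts

/-! Module GB2: the weighted second moment of `gz`. -/

set_option autoImplicit false

open Finset MeasureTheory Filter Topology Matrix
open scoped ENNReal ContDiff

namespace Pool.Agent.Helper44.GJ

open Pool.Agent.Helper44.GF Pool.Agent.Helper44.GN Pool.Agent.Helper44.GH

namespace GB2

variable {n m : ℕ}

/-- The inverse of the normalised weight. -/
theorem Yj_inv (p : ℝ) (V : Matrix (Fin n) (Fin m) ℝ) (c : Fin n → ℝ) (j : Fin n)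
    (x : Fin m → ℝ) :
    (Yj p V c j x)⁻¹ = c j / (p * (p - 1)) * |V.mulVec x j| ^ (-(p - 2)) := by
  unfold Yj g2
  rw [Real.rpow_neg (abs_nonneg _), inv_div, div_eq_mul_inv, mul_inv, div_eq_mul_inv]
  ring

/-- The kernel of a nonzero row is a null set. -/
theorem row_ne (V : Matrix (Fin n) (Fin m) ℝ) (i : Fin n) (hi : V i ≠ 0) :
    ∀ᵐ x : Fin m → ℝ, V.mulVec x i ≠ 0 := by
  have h1 : volume (((LinearMap.proj i).comp V.mulVecLin).ker : Set (Fin m → ℝ)) = 0 := by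
    apply MeasureTheory.Measure.addHaar_submodule
    intro htop
    apply hi
    funext a
    have h2 : (Pi.single a 1 : Fin m → ℝ) ∈ ((LinearMap.proj i).comp V.mulVecLin).ker := by
      rw [htop]; trivial
    rw [LinearMap.mem_ker] at h2
    have h3 : ((LinearMap.proj i).comp V.mulVecLin) (Pi.single a 1 : Fin m → ℝ) = V i a := by
      show V.mulVec (Pi.single a 1) i = V i a
      rw [Matrix.mulVec_single_one]
      rfl
    rw [h3] at h2
    exact h2
  rw [ae_iff]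
  refine measure_mono_null ?_ h1
  intro x hx
  have hx' : ¬ V.mulVec x i ≠ 0 := hx
  rw [not_not] at hx'
  show x ∈ ((LinearMap.proj i).comp V.mulVecLin).ker
  rw [LinearMap.mem_ker]
  exact hx'

/-- Linear growth. -/
theorem row_le (V : Matrix (Fin n) (Fin m) ℝ) : ∃ A : ℝ, 1 ≤ A ∧ ∀ (x : Fin m → ℝ) (i : Fin n),
    1 + |V.mulVec x i| ≤ A * (1 + ‖x‖) := by
  refine ⟨1 + ∑ i, ∑ a, |V i a|, ?_, ?_⟩
  · have : 0 ≤ ∑ i, ∑ a, |V i a| := Finset.sum_nonneg fun i _ => Finset.sum_nonneg fun a _ => abs_nonneg _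
    linarith
  · intro x i
    have h0 := norm_nonneg x
    have h1 : |V.mulVec x i| ≤ (∑ a, |V i a|) * ‖x‖ := by
      unfold Matrix.mulVec dotProduct
      rw [Finset.sum_mul]
      refine (Finset.abs_sum_le_sum_abs _ _).trans (Finset.sum_le_sum fun a _ => ?_)
      rw [abs_mul]
      exact mul_le_mul_of_nonneg_left (norm_le_pi_norm x a) (abs_nonneg _)
    have h2 : ∑ a, |V i a| ≤ ∑ i, ∑ a, |V i a| :=
      Finset.single_le_sum (f := fun i => ∑ a, |V i a|) (fun i _ => Finset.sum_nonneg fun a _ => abs_nonneg _)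
        (Finset.mem_univ i)
    have h3 : 0 ≤ ∑ i, ∑ a, |V i a| := Finset.sum_nonneg fun i _ => Finset.sum_nonneg fun a _ => abs_nonneg _
    have h4 := mul_le_mul_of_nonneg_right h2 h0
    nlinarith

theorem mulVec_add_smul (V : Matrix (Fin n) (Fin m) ℝ) (x h : Fin m → ℝ) (r : ℝ) (i : Fin n) :
    V.mulVec (x + r • h) i = V.mulVec x i + r * V.mulVec h i := by
  rw [Matrix.mulVec_add, Matrix.mulVec_smul, Pi.add_apply, Pi.smul_apply, smul_eq_mul]

theorem cont_row (V : Matrix (Fin n) (Fin m) ℝ) (i : Fin n) :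
    Continuous fun x : Fin m → ℝ => V.mulVec x i := by
  unfold Matrix.mulVec dotProduct
  exact continuous_finsetSum _ fun a _ => (continuous_const.mul (continuous_apply a))

/-- The function `v . gz`. -/
noncomputable def FF (p : ℝ) (V Z : Matrix (Fin n) (Fin m) ℝ) (v x : Fin m → ℝ) : ℝ :=
  v ⬝ᵥ gz p V Z x

theorem FF_eq (p : ℝ) (V Z : Matrix (Fin n) (Fin m) ℝ) (v x : Fin m → ℝ) :
    FF p V Z v x = ∑ i, g1 p (V.mulVec x i) * (Z i ⬝ᵥ v) := by
  unfold FF gz dotProduct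
  have h1 : ∀ b, v b * ∑ i, g1 p (V.mulVec x i) * Z i b = ∑ i, g1 p (V.mulVec x i) * (Z i b * v b) := by
    intro b
    rw [Finset.mul_sum]
    exact Finset.sum_congr rfl fun i _ => by ring
  rw [Finset.sum_congr rfl fun b _ => h1 b, Finset.sum_comm]
  refine Finset.sum_congr rfl fun i _ => ?_
  rw [← Finset.mul_sum]

/-- The gradient of `v . gz`. -/
noncomputable def ww (p : ℝ) (V Z : Matrix (Fin n) (Fin m) ℝ) (c : Fin n → ℝ) (v : Fin m → ℝ)
    (i : Fin n) (x : Fin m → ℝ) : ℝ := (g2 p (V.mulVec x i) - c i) * (Z i ⬝ᵥ v)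

/-- The condition `TT V Z c = 0`. -/
theorem TT_zero (V Z : Matrix (Fin n) (Fin m) ℝ) (c : Fin n → ℝ) (h : TT V Z c = 0)
    (v k : Fin m → ℝ) : ∑ i, c i * (Z i ⬝ᵥ v) * V.mulVec k i = 0 := by
  have h1 : k ⬝ᵥ (TT V Z c).mulVec v = 0 := by
    rw [h, Matrix.zero_mulVec, dotProduct_zero]
  unfold TT at h1
  rw [← Matrix.mulVec_mulVec, ← Matrix.mulVec_mulVec, Matrix.dotProduct_mulVec,
    Matrix.vecMul_transpose] at h1
  unfold dotProduct at h1
  rw [← h1]
  refine Finset.sum_congr rfl fun i _ => ?_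
  rw [Matrix.mulVec_diagonal]
  show c i * (Z i ⬝ᵥ v) * V.mulVec k i = V.mulVec k i * (c i * (Z i ⬝ᵥ v))
  ring

theorem rg (hGD : ST_GD) {p : ℝ} (hp : 2 < p) (hp3 : p ≤ 3) (V Z : Matrix (Fin n) (Fin m) ℝ)
    (c : Fin n → ℝ) (hc : ∀ i, 0 < c i) (hT : TT V Z c = 0) (v : Fin m → ℝ) :
    Rg V (FF p V Z v) (ww p V Z c v) := by
  obtain ⟨-, hd, hc1, hc2, hg0, -, hb1, hb2, -, -⟩ := hGD p hp hp3
  have hF : FF p V Z v = fun x => ∑ i, g1 p (V.mulVec x i) * (Z i ⬝ᵥ v) := funext fun x => FF_eq p V Z v x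
  obtain ⟨A, hA1, hA⟩ := row_le V
  refine ⟨?_, ?_, ?_, ?_⟩
  · rw [hF]
    exact continuous_finsetSum _ fun i _ => (hc1.comp (cont_row V i)).mul continuous_const
  · intro i
    unfold ww
    exact ((hc2.comp (cont_row V i)).sub continuous_const).mul continuous_const
  · set Bz : ℝ := ∑ i, |Z i ⬝ᵥ v| with hBz
    have hBz0 : 0 ≤ Bz := Finset.sum_nonneg fun i _ => abs_nonneg _
    have hBi : ∀ i, |Z i ⬝ᵥ v| ≤ Bz := fun i =>
      Finset.single_le_sum (f := fun i => |Z i ⬝ᵥ v|) (fun i _ => abs_nonneg _) (Finset.mem_univ i)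
    set Bc : ℝ := ∑ i, c i with hBc
    have hBc0 : 0 ≤ Bc := Finset.sum_nonneg fun i _ => (hc i).le
    have hBci : ∀ i, c i ≤ Bc := fun i =>
      Finset.single_le_sum (f := c) (fun i _ => (hc i).le) (Finset.mem_univ i)
    refine ⟨(6 * A ^ 2 + Bc) * Bz, 2, fun x => ?_⟩
    have h0 := norm_nonneg x
    have hx1 : 1 ≤ 1 + ‖x‖ := by linarith
    have hx2 : 1 + ‖x‖ ≤ (1 + ‖x‖) ^ 2 := by nlinarith
    have hx3 : (1 : ℝ) ≤ (1 + ‖x‖) ^ 2 := by nlinarith
    have hAA : A ≤ A ^ 2 := by nlinarith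
    constructor
    · rw [FF_eq]
      have h1 : ∀ i ∈ (Finset.univ : Finset (Fin n)), |g1 p (V.mulVec x i) * (Z i ⬝ᵥ v)| ≤
          (3 * A ^ 2 * (1 + ‖x‖) ^ 2) * |Z i ⬝ᵥ v| := by
        intro i _
        rw [abs_mul]
        apply mul_le_mul_of_nonneg_right _ (abs_nonneg _)
        refine (hb1 _).trans ?_
        have h2 := pow_le_pow_left₀ (by positivity : 0 ≤ 1 + |V.mulVec x i|) (hA x i) 2
        rw [mul_pow] at h2
        linarith
      refine (Finset.abs_sum_le_sum_abs _ _).trans ((Finset.sum_le_sum h1).trans ?_)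
      rw [← Finset.mul_sum, ← hBz]
      have h3 : 3 * A ^ 2 ≤ 6 * A ^ 2 + Bc := by nlinarith [sq_nonneg A]
      have h4 := mul_le_mul_of_nonneg_right h3 (mul_nonneg (by positivity : (0 : ℝ) ≤ (1 + ‖x‖) ^ 2) hBz0)
      linarith
    · intro i
      unfold ww
      rw [abs_mul]
      have h1 : |g2 p (V.mulVec x i) - c i| ≤ (6 * A ^ 2 + Bc) * (1 + ‖x‖) ^ 2 := by
        have h2 := hg0 (V.mulVec x i)
        have h3 := hb2 (V.mulVec x i)
        have h4 := hA x i
        have h5 := hc i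
        have h6 := hBci i
        have h7 : A * (1 + ‖x‖) ≤ A ^ 2 * (1 + ‖x‖) ^ 2 := mul_le_mul hAA hx2 (by positivity) (by positivity)
        have h8 : Bc * 1 ≤ Bc * (1 + ‖x‖) ^ 2 := mul_le_mul_of_nonneg_left hx3 hBc0
        rw [abs_le]
        constructor <;> nlinarith
      have h2 := mul_le_mul h1 (hBi i) (abs_nonneg _) (by positivity)
      linarith
  · intro x h
    rw [hF]
    have h1 : ∀ i ∈ (Finset.univ : Finset (Fin n)), HasDerivAt
        (fun r : ℝ => g1 p (V.mulVec (x + r • h) i) * (Z i ⬝ᵥ v))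
        (g2 p (V.mulVec x i) * V.mulVec h i * (Z i ⬝ᵥ v)) 0 := by
      intro i _
      have h2 : (fun r : ℝ => g1 p (V.mulVec (x + r • h) i)) = g1 p ∘ fun r : ℝ => V.mulVec x i + r * V.mulVec h i := by
        funext r
        rw [mulVec_add_smul]
        rfl
      have h3 : HasDerivAt (fun r : ℝ => V.mulVec x i + r * V.mulVec h i) (V.mulVec h i) 0 := by
        have h4 := ((hasDerivAt_id (0 : ℝ)).mul_const (V.mulVec h i)).const_add (V.mulVec x i)
        rw [one_mul] at h4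
        exact h4
      have h5 : HasDerivAt (g1 p) (g2 p (V.mulVec x i)) ((fun r : ℝ => V.mulVec x i + r * V.mulVec h i) 0) := by
        have h6 : (fun r : ℝ => V.mulVec x i + r * V.mulVec h i) 0 = V.mulVec x i := by
          show V.mulVec x i + 0 * V.mulVec h i = V.mulVec x i
          ring
        rw [h6]
        exact hd _
      have h7 := (h5.comp (0 : ℝ) h3).mul_const (Z i ⬝ᵥ v)
      rw [← h2] at h7
      exact h7
    have h2 := HasDerivAt.fun_sum h1
    have h3 : ∑ i, ww p V Z c v i x * V.mulVec h i = ∑ i, g2 p (V.mulVec x i) * V.mulVec h i * (Z i ⬝ᵥ v) := by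
      have h4 := TT_zero V Z c hT v h
      have h5 : ∑ i, ww p V Z c v i x * V.mulVec h i = ∑ i, g2 p (V.mulVec x i) * V.mulVec h i * (Z i ⬝ᵥ v) -
          ∑ i, c i * (Z i ⬝ᵥ v) * V.mulVec h i := by
        rw [← Finset.sum_sub_distrib]
        refine Finset.sum_congr rfl fun i _ => ?_
        unfold ww
        ring
      rw [h5, h4, sub_zero]
    rw [h3]
    exact h2

theorem FF_odd (hGD : ST_GD) {p : ℝ} (hp : 2 < p) (hp3 : p ≤ 3) (V Z : Matrix (Fin n) (Fin m) ℝ)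
    (v x : Fin m → ℝ) : FF p V Z v (-x) = -FF p V Z v x := by
  obtain ⟨-, -, -, -, -, hodd, -, -, -, -⟩ := hGD p hp hp3
  rw [FF_eq, FF_eq, ← Finset.sum_neg_distrib]
  refine Finset.sum_congr rfl fun i _ => ?_
  rw [Matrix.mulVec_neg, Pi.neg_apply, hodd]
  ring

/-- The algebra of the bound. -/
theorem alg_w {g c z : ℝ} (hg : 0 < g) (hc : 0 < c) :
    ((g - c) * z) ^ 2 / g = c * z ^ 2 * (g / c + (g / c)⁻¹ - 2) := by
  field_simp
  ring

theorem alg_y (u s : ℝ) : u * s ≤ s + 5 / 16 * (u - 1) ^ 2 + 4 / 5 * s ^ 2 := by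
  nlinarith [sq_nonneg (s - 5 / 8 * (u - 1))]

section int

variable (hIN1 : ST_IN1) (hGD : ST_GD) {p : ℝ} (hp : 2 < p) (hp5 : p ≤ 11 / 5)
  (V : Matrix (Fin n) (Fin m) ℝ) (hV : Function.Injective V.mulVec) (c : Fin n → ℝ)
  (hc : ∀ i, 0 < c i)

theorem cont_ee {p : ℝ} (hp : 2 < p) (V : Matrix (Fin n) (Fin m) ℝ) : Continuous (ee p V) := by
  unfold ee Ph
  refine Real.continuous_exp.comp (Continuous.neg (continuous_finsetSum _ fun i _ => ?_))
  exact (continuous_abs.comp (cont_row V i)).rpow_const fun x => Or.inr (by linarith)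

include hIN1 hp hp5 hV in
theorem int_poly (i : Fin n) (hi : V i ≠ 0) (F : (Fin m → ℝ) → ℝ) (C : ℝ) (k : ℕ)
    (hF : AEStronglyMeasurable F volume) (hb : ∀ x, |F x| ≤ C * (1 + ‖x‖) ^ k) :
    Integrable (fun x => F x * ee p V x) := by
  have h1 := hIN1 n m p V hp (by linarith) hV i i hi hi 0 0 le_rfl le_rfl (by norm_num) F C k hF hb
  refine h1.congr (Eventually.of_forall fun x => ?_)
  show |V.mulVec x i| ^ (-(0 : ℝ)) * |V.mulVec x i| ^ (-(0 : ℝ)) * F x * ee p V x = F x * ee p V x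
  rw [neg_zero, Real.rpow_zero, one_mul, one_mul]

include hIN1 hp hp5 hV in
theorem int_one (i : Fin n) (hi : V i ≠ 0) : Integrable (fun x => ee p V x) := by
  have h1 := int_poly hIN1 hp hp5 V hV i hi (fun _ => 1) 1 0 aestronglyMeasurable_const
    (fun _ => by simp)
  refine h1.congr (Eventually.of_forall fun x => ?_)
  show 1 * ee p V x = ee p V x
  rw [one_mul]

include hGD hp hp5 in
theorem cont_Y (i : Fin n) : Continuous (Yj p V c i) := by
  obtain ⟨-, -, -, hc2, -, -, -, -, -, -⟩ := hGD p hp (by linarith)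
  unfold Yj
  exact (hc2.comp (cont_row V i)).div_const _

include hIN1 hGD hp hp5 hV hc in
theorem int_Y2 (i : Fin n) (hi : V i ≠ 0) : Integrable (fun x => Yj p V c i x ^ 2 * ee p V x) := by
  obtain ⟨-, -, -, hc2, hg0, -, -, hb2, -, -⟩ := hGD p hp (by linarith)
  obtain ⟨A, hA1, hA⟩ := row_le V
  refine int_poly hIN1 hp hp5 V hV i hi (fun x => Yj p V c i x ^ 2) ((6 * A / c i) ^ 2) 2
    ((cont_Y hGD hp hp5 V c i).pow 2).aestronglyMeasurable (fun x => ?_)
  rw [abs_of_nonneg (sq_nonneg _), ← mul_pow]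
  have h1 := hg0 (V.mulVec x i)
  have h2 := hb2 (V.mulVec x i)
  have h3 := hA x i
  have h4 := hc i
  refine pow_le_pow_left₀ (div_nonneg h1 h4.le) ?_ 2
  rw [div_mul_eq_mul_div]
  exact div_le_div_of_nonneg_right (by nlinarith) h4.le

include hIN1 hp hp5 hV in
theorem int_Yi2 (i : Fin n) (hi : V i ≠ 0) : Integrable (fun x => (Yj p V c i x)⁻¹ ^ 2 * ee p V x) := by
  have h1 := (hIN1 n m p V hp (by linarith) hV i i hi hi (p - 2) (p - 2) (by linarith) (by linarith)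
    (by linarith) (fun _ => 1) 1 0 aestronglyMeasurable_const (fun _ => by simp)).const_mul
    ((c i / (p * (p - 1))) ^ 2)
  refine h1.congr (Eventually.of_forall fun x => ?_)
  show (c i / (p * (p - 1))) ^ 2 * (|V.mulVec x i| ^ (-(p - 2)) * |V.mulVec x i| ^ (-(p - 2)) * 1 * ee p V x) =
    (Yj p V c i x)⁻¹ ^ 2 * ee p V x
  rw [Yj_inv]
  ring

include hIN1 hGD hp hp5 hV hc in
/-- Functions dominated by squares of the weights are integrable. -/
theorem int_dom (i j : Fin n) (hi : V i ≠ 0) (hj : V j ≠ 0) (G : (Fin m → ℝ) → ℝ)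
    (hG : Measurable G) (C : ℝ)
    (hb : ∀ x, |G x| ≤ C * (1 + Yj p V c i x ^ 2 + (Yj p V c i x)⁻¹ ^ 2 + (Yj p V c j x)⁻¹ ^ 2)) :
    Integrable (fun x => G x * ee p V x) := by
  have h1 := ((((int_one hIN1 hp hp5 V hV i hi).add (int_Y2 hIN1 hGD hp hp5 V hV c hc i hi)).add
    (int_Yi2 hIN1 hp hp5 V hV c i hi)).add (int_Yi2 hIN1 hp hp5 V hV c j hj)).const_mul C
  refine h1.mono' ((hG.mul (cont_ee hp V).measurable).aestronglyMeasurable) (Eventually.of_forall fun x => ?_)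
  have he : 0 < ee p V x := Real.exp_pos _
  rw [Real.norm_eq_abs, abs_mul, abs_of_pos he]
  refine (mul_le_mul_of_nonneg_right (hb x) he.le).trans (le_of_eq ?_)
  show _ = C * (ee p V x + Yj p V c i x ^ 2 * ee p V x + (Yj p V c i x)⁻¹ ^ 2 * ee p V x +
    (Yj p V c j x)⁻¹ ^ 2 * ee p V x)
  ring

end int

/-- Monotonicity of `IE` and sums. -/
theorem Mp_nonneg (p : ℝ) (V : Matrix (Fin n) (Fin m) ℝ) : 0 ≤ Mp p V :=
  integral_nonneg fun _ => (Real.exp_pos _).le

end GB2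

open GB2 in
theorem st_GB2 (hBLW : ST_BLW) (hGD : ST_GD) (hIN1 : ST_IN1) : ST_GB2 := by
  intro n m p V Z c hp hp5 hV hR hTV hT hZ j hj v
  have hp3 : p ≤ 3 := by linarith
  have hc := hR.c0
  have hM := Mp_nonneg p V
  obtain ⟨-, -, -, hc2, hg0, -, -, -, -, -⟩ := hGD p hp hp3
  set κ : ℝ := c j / (p * (p - 1)) with hκ
  have hκ0 : 0 < κ := div_pos (hc j) (mul_pos (by linarith) (by linarith))
  obtain ⟨hI, hle⟩ := hBLW n m p V hp (by linarith) hV (FF p V Z v) (ww p V Z c v)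
    (rg hGD hp hp3 V Z c hc hT v) (FF_odd hGD hp hp3 V Z v) j hj (p - 2) (by linarith) (by linarith)
  set P : Fin n → (Fin m → ℝ) → ℝ := fun i x => Yj p V c i x + (Yj p V c i x)⁻¹ - 2 with hP
  set G : Fin n → (Fin m → ℝ) → ℝ := fun i x => P i x + 5 / 16 * ((Yj p V c j x)⁻¹ - 1) ^ 2 +
    4 / 5 * P i x ^ 2 with hG
  have mY : ∀ i, Measurable (Yj p V c i) := fun i => (cont_Y hGD hp hp5 V c i).measurable
  have mP : ∀ i, Measurable (P i) := fun i => ((mY i).add (mY i).inv).sub_const 2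
  have hY0 : ∀ i x, 0 ≤ Yj p V c i x := fun i x => div_nonneg (hg0 _) (hc i).le
  -- integrability
  have iP : ∀ i, V i ≠ 0 → Integrable (fun x => P i x * ee p V x) := by
    intro i hi
    refine int_dom hIN1 hGD hp hp5 V hV c hc i j hi hj (P i) (mP i) 2 (fun x => ?_)
    have h1 := hY0 i x
    have h2 := inv_nonneg.2 h1
    have h3 := sq_nonneg ((Yj p V c j x)⁻¹)
    rw [hP, abs_le]
    beta_reduce
    constructor <;> nlinarith [sq_nonneg (Yj p V c i x - 1), sq_nonneg ((Yj p V c i x)⁻¹ - 1)]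
  have iP2 : ∀ i, V i ≠ 0 → Integrable (fun x => P i x ^ 2 * ee p V x) := by
    intro i hi
    refine int_dom hIN1 hGD hp hp5 V hV c hc i j hi hj (fun x => P i x ^ 2) ((mP i).pow_const 2) 12 (fun x => ?_)
    have h3 := sq_nonneg ((Yj p V c j x)⁻¹)
    rw [abs_of_nonneg (sq_nonneg _), hP]
    beta_reduce
    nlinarith [sq_nonneg (Yj p V c i x - (Yj p V c i x)⁻¹), sq_nonneg (Yj p V c i x + 2),
      sq_nonneg ((Yj p V c i x)⁻¹ + 2), sq_nonneg (Yj p V c i x), sq_nonneg ((Yj p V c i x)⁻¹)]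
  have iY : Integrable (fun x => ((Yj p V c j x)⁻¹ - 1) ^ 2 * ee p V x) := by
    refine int_dom hIN1 hGD hp hp5 V hV c hc j j hj hj (fun x => ((Yj p V c j x)⁻¹ - 1) ^ 2)
      (((mY j).inv.sub_const 1).pow_const 2) 2 (fun x => ?_)
    rw [abs_of_nonneg (sq_nonneg _)]
    nlinarith [sq_nonneg (Yj p V c j x), sq_nonneg ((Yj p V c j x)⁻¹), sq_nonneg ((Yj p V c j x)⁻¹ + 1)]
  have iG : ∀ i, V i ≠ 0 → Integrable (fun x => G i x * ee p V x) := by
    intro i hi
    have h1 := ((iP i hi).add (iY.const_mul (5 / 16))).add ((iP2 i hi).const_mul (4 / 5))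
    refine h1.congr (Eventually.of_forall fun x => ?_)
    show P i x * ee p V x + 5 / 16 * (((Yj p V c j x)⁻¹ - 1) ^ 2 * ee p V x) + 4 / 5 * (P i x ^ 2 * ee p V x) =
      G i x * ee p V x
    rw [hG]
    beta_reduce
    ring
  have bG : ∀ i, V i ≠ 0 → ∫ x, G i x * ee p V x ≤ 161 / 1000 * Mp p V := by
    intro i hi
    have e1 : ∫ x, G i x * ee p V x = (∫ x, P i x * ee p V x) + 5 / 16 * (∫ x, ((Yj p V c j x)⁻¹ - 1) ^ 2 * ee p V x) +
        4 / 5 * ∫ x, P i x ^ 2 * ee p V x := by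
      have a1 := integral_add (iP i hi) (iY.const_mul (5 / 16))
      have a2 := integral_add ((iP i hi).add (iY.const_mul (5 / 16))) ((iP2 i hi).const_mul (4 / 5))
      rw [integral_const_mul] at a1
      rw [integral_const_mul] at a2
      have a3 : ∫ x, G i x * ee p V x = ∫ x, ((P i x * ee p V x + 5 / 16 *
          (((Yj p V c j x)⁻¹ - 1) ^ 2 * ee p V x)) + 4 / 5 * (P i x ^ 2 * ee p V x)) := by
        refine integral_congr_ae (Eventually.of_forall fun x => ?_)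
        show G i x * ee p V x = P i x * ee p V x + 5 / 16 * (((Yj p V c j x)⁻¹ - 1) ^ 2 * ee p V x) +
          4 / 5 * (P i x ^ 2 * ee p V x)
        rw [hG]
        beta_reduce
        ring
      rw [a3]
      refine a2.trans ?_
      refine congrArg (fun z => z + 4 / 5 * ∫ x, P i x ^ 2 * ee p V x) ?_
      exact a1
    have h4 : ∫ x, P i x * ee p V x ≤ 2 / 25 * Mp p V := hR.r4 i hi
    have h5 : ∫ x, ((Yj p V c j x)⁻¹ - 1) ^ 2 * ee p V x ≤ 13 / 100 * Mp p V := hR.r5 j hj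
    have h6 : ∫ x, P i x ^ 2 * ee p V x ≤ 1 / 20 * Mp p V := hR.r6 i hi
    rw [e1]
    linarith
  -- the terms
  have iT : ∀ i ∈ (Finset.univ : Finset (Fin n)),
      Integrable (fun x => c i * (Z i ⬝ᵥ v) ^ 2 * (G i x * ee p V x)) := by
    intro i _
    by_cases hi : V i = 0
    · have h1 : (fun x : Fin m → ℝ => c i * (Z i ⬝ᵥ v) ^ 2 * (G i x * ee p V x)) = fun _ => 0 := by
        funext x
        rw [hZ i hi, zero_dotProduct]
        ring
      rw [h1]
      exact integrable_zero _ _ _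
    · exact (iG i hi).const_mul _
  -- the left hand side
  have e1 : IE p V (fun x => (Yj p V c j x)⁻¹ * (v ⬝ᵥ gz p V Z x) ^ 2) =
      κ * IE p V (fun x => |V.mulVec x j| ^ (-(p - 2)) * FF p V Z v x ^ 2) := by
    unfold IE
    rw [← integral_const_mul]
    refine integral_congr_ae (Eventually.of_forall fun x => ?_)
    show (Yj p V c j x)⁻¹ * (v ⬝ᵥ gz p V Z x) ^ 2 * ee p V x =
      κ * (|V.mulVec x j| ^ (-(p - 2)) * (v ⬝ᵥ gz p V Z x) ^ 2 * ee p V x)
    rw [Yj_inv]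
    ring
  have h1 : κ * IE p V (fun x => |V.mulVec x j| ^ (-(p - 2)) * ∑ i, ww p V Z c v i x ^ 2 / g2 p (V.mulVec x i)) ≤
      ∫ x, ∑ i, c i * (Z i ⬝ᵥ v) ^ 2 * (G i x * ee p V x) := by
    unfold IE
    rw [← integral_const_mul]
    refine integral_mono_ae (hI.const_mul κ) (integrable_finsetSum _ iT) ?_
    have hnz : ∀ᵐ x : Fin m → ℝ, ∀ i, V i ≠ 0 → V.mulVec x i ≠ 0 := by
      rw [ae_all_iff]
      intro i
      by_cases hi : V i = 0
      · exact Eventually.of_forall fun _ h => absurd hi h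
      · filter_upwards [row_ne V i hi] with x hx _ using hx
    filter_upwards [hnz] with x hx
    have he : 0 < ee p V x := Real.exp_pos _
    have hYj : 0 ≤ (Yj p V c j x)⁻¹ := inv_nonneg.2 (hY0 j x)
    have e2 : κ * (|V.mulVec x j| ^ (-(p - 2)) * (∑ i, ww p V Z c v i x ^ 2 / g2 p (V.mulVec x i)) * ee p V x) =
        ∑ i, (Yj p V c j x)⁻¹ * (ww p V Z c v i x ^ 2 / g2 p (V.mulVec x i)) * ee p V x := by
      rw [← Finset.sum_mul, ← Finset.mul_sum, Yj_inv]
      ring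
    rw [e2]
    refine Finset.sum_le_sum fun i _ => ?_
    by_cases hi : V i = 0
    · have h2 : ww p V Z c v i x = 0 := by
        unfold ww
        rw [hZ i hi, zero_dotProduct, mul_zero]
      rw [h2, hZ i hi, zero_dotProduct]
      simp
    · have hgp : 0 < g2 p (V.mulVec x i) := by
        unfold g2
        have h2 : 0 < |V.mulVec x i| := abs_pos.2 (hx i hi)
        have h3 : 0 < |V.mulVec x i| ^ (p - 2) := Real.rpow_pos_of_pos h2 _
        exact mul_pos (mul_pos (by linarith) (by linarith)) h3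
      have h2 : ww p V Z c v i x ^ 2 / g2 p (V.mulVec x i) = c i * (Z i ⬝ᵥ v) ^ 2 * P i x := by
        unfold ww
        rw [alg_w hgp (hc i)]
        rfl
      rw [h2]
      have h3 := alg_y ((Yj p V c j x)⁻¹) (P i x)
      have h4 : 0 ≤ c i * (Z i ⬝ᵥ v) ^ 2 * ee p V x := mul_nonneg (mul_nonneg (hc i).le (sq_nonneg _)) he.le
      have h5 := mul_le_mul_of_nonneg_left h3 h4
      have h6 : G i x = P i x + 5 / 16 * ((Yj p V c j x)⁻¹ - 1) ^ 2 + 4 / 5 * P i x ^ 2 := rfl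
      rw [h6]
      linarith
  have h2 : ∫ x, ∑ i, c i * (Z i ⬝ᵥ v) ^ 2 * (G i x * ee p V x) ≤
      161 / 1000 * (∑ i, c i * (Z i ⬝ᵥ v) ^ 2) * Mp p V := by
    rw [integral_finsetSum _ iT, Finset.mul_sum, Finset.sum_mul]
    refine Finset.sum_le_sum fun i _ => ?_
    rw [integral_const_mul]
    by_cases hi : V i = 0
    · rw [hZ i hi, zero_dotProduct]
      simp
    · have h3 := bG i hi
      have h4 : 0 ≤ c i * (Z i ⬝ᵥ v) ^ 2 := mul_nonneg (hc i).le (sq_nonneg _)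
      have h5 := mul_le_mul_of_nonneg_left h3 h4
      linarith
  rw [e1]
  exact (mul_le_mul_of_nonneg_left hle hκ0.le).trans (h1.trans h2)

end Pool.Agent.Helper44.GJ
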